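import Mathlib

/-!
# MP_735b88_an: differentiable nonexpansive retractions onto fixed point sets
-/

namespace Pool.Agent.Results.MP_735b88_an.Retraction

open Set Filter Topology

/-- `N` is a polyhedral norm on `ℝⁿ`: a norm which is the maximum of finitely many linear
functionals. -/
structure IsPolyhedralNorm {n : ℕ} (N : Seminorm ℝ (Fin n → ℝ)) : Prop where
  definite : ∀ x, N x = 0 → x = 0
  polyhedral : ∃ (m : ℕ) (φ : Fin m → ((Fin n → ℝ) →ₗ[ℝ] ℝ)),
    ∀ x, (∀ i, φ i x ≤ N x) ∧ ∃ i, φ i x = N x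

/-- `f` is nonexpansive for `N` -/
def Nonexpansive {n : ℕ} (N : Seminorm ℝ (Fin n → ℝ)) (f : (Fin n → ℝ) → (Fin n → ℝ)) : Prop :=
  ∀ x y, N (f x - f y) ≤ N (x - y)

/-- `r` is a retraction onto `A` -/
def IsRetraction {n : ℕ} (r : (Fin n → ℝ) → (Fin n → ℝ)) (A : Set (Fin n → ℝ)) : Prop :=
  range r = A ∧ ∀ a ∈ A, r a = a

/-- `t³/(1+t²)` -/
noncomputable def a (t : ℝ) : ℝ := t ^ 3 / (1 + t ^ 2)

lemma a_sub (t s : ℝ) : ∃ m, 0 ≤ m ∧ m ≤ 3 / 2 ∧ a t - a s = m * (t - s) := by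
  refine ⟨(t ^ 2 + t * s + s ^ 2 + t ^ 2 * s ^ 2) / ((1 + t ^ 2) * (1 + s ^ 2)), ?_, ?_, ?_⟩
  · apply div_nonneg _ (by positivity)
    nlinarith [sq_nonneg (t + s), sq_nonneg t, sq_nonneg s, sq_nonneg (t * s)]
  · rw [div_le_iff₀ (by positivity)]
    nlinarith [sq_nonneg (t - s), sq_nonneg t, sq_nonneg s, sq_nonneg (t * s)]
  · unfold a
    field_simp
    ring

/-- the function whose zero set is the fixed point set -/
noncomputable def g (p : Fin 3 → ℝ) : ℝ :=
  5 * a (p 2 + p 0) + 173 * a (p 2 - p 0) + 19 * a (p 2 + p 1) + 19 * a (p 2 - p 1)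

/-- the nonexpansive map -/
noncomputable def f (p : Fin 3 → ℝ) : Fin 3 → ℝ := ![p 0, p 1, p 2 - 1 / 324 * g p]

lemma fix_iff (p : Fin 3 → ℝ) : f p = p ↔ g p = 0 := by
  constructor
  · intro h
    have := congrFun h 2
    simp [f] at this
    exact this
  · intro h
    ext i
    fin_cases i <;> simp [f, h]

lemma f_nonexpansive : Nonexpansive (normSeminorm ℝ (Fin 3 → ℝ)) f := by
  intro p q
  simp only [coe_normSeminorm]
  rw [pi_norm_le_iff_of_nonneg (norm_nonneg _)]
  set δ := ‖p - q‖ with hδ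
  have hc : ∀ i, |p i - q i| ≤ δ := fun i => by
    have := norm_le_pi_norm (p - q) i
    simpa using this
  have h0 := abs_le.mp (hc 0)
  have h1 := abs_le.mp (hc 1)
  have h2 := abs_le.mp (hc 2)
  intro i
  fin_cases i
  · simpa [f] using hc 0
  · simpa [f] using hc 1
  · obtain ⟨m1, k1, l1, e1⟩ := a_sub (p 2 + p 0) (q 2 + q 0)
    obtain ⟨m2, k2, l2, e2⟩ := a_sub (p 2 - p 0) (q 2 - q 0)
    obtain ⟨m3, k3, l3, e3⟩ := a_sub (p 2 + p 1) (q 2 + q 1)
    obtain ⟨m4, k4, l4, e4⟩ := a_sub (p 2 - p 1) (q 2 - q 1)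
    have hg : g p - g q = 5 * (m1 * ((p 2 + p 0) - (q 2 + q 0)))
        + 173 * (m2 * ((p 2 - p 0) - (q 2 - q 0))) + 19 * (m3 * ((p 2 + p 1) - (q 2 + q 1)))
        + 19 * (m4 * ((p 2 - p 1) - (q 2 - q 1))) := by
      rw [← e1, ← e2, ← e3, ← e4]; unfold g; ring
    show ‖(f p - f q) 2‖ ≤ δ
    have hval : (f p - f q) 2 = (p 2 - q 2) - 1 / 324 * (g p - g q) := by
      simp [f]; ring
    rw [hval, hg, Real.norm_eq_abs, abs_le]
    set dx := p 0 - q 0 with hdx
    set dy := p 1 - q 1 with hdy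
    set dz := p 2 - q 2 with hdz
    set μ := (5 * m1 + 173 * m2 + 19 * m3 + 19 * m4) / 324 with hμ
    have hμ1 : 0 ≤ 1 - μ := by rw [hμ]; linarith
    have a1 := mul_nonneg hμ1 (show 0 ≤ δ - dz by linarith)
    have a2 := mul_nonneg hμ1 (show 0 ≤ δ + dz by linarith)
    have b1 := mul_nonneg k1 (show 0 ≤ δ + dx by linarith)
    have b2 := mul_nonneg k1 (show 0 ≤ δ - dx by linarith)
    have c1 := mul_nonneg k2 (show 0 ≤ δ + dx by linarith)
    have c2 := mul_nonneg k2 (show 0 ≤ δ - dx by linarith)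
    have d1 := mul_nonneg k3 (show 0 ≤ δ + dy by linarith)
    have d2 := mul_nonneg k3 (show 0 ≤ δ - dy by linarith)
    have f1 := mul_nonneg k4 (show 0 ≤ δ + dy by linarith)
    have f2 := mul_nonneg k4 (show 0 ≤ δ - dy by linarith)
    have E1 : δ + (dz - 1 / 324 * (5 * (m1 * ((p 2 + p 0) - (q 2 + q 0)))
        + 173 * (m2 * ((p 2 - p 0) - (q 2 - q 0))) + 19 * (m3 * ((p 2 + p 1) - (q 2 + q 1)))
        + 19 * (m4 * ((p 2 - p 1) - (q 2 - q 1)))))
        = (1 - μ) * (δ + dz) + 1 / 324 * (5 * (m1 * (δ - dx)) + 173 * (m2 * (δ + dx))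
          + 19 * (m3 * (δ - dy)) + 19 * (m4 * (δ + dy))) := by
      rw [hμ, hdx, hdy, hdz]; ring
    have E2 : δ - (dz - 1 / 324 * (5 * (m1 * ((p 2 + p 0) - (q 2 + q 0)))
        + 173 * (m2 * ((p 2 - p 0) - (q 2 - q 0))) + 19 * (m3 * ((p 2 + p 1) - (q 2 + q 1)))
        + 19 * (m4 * ((p 2 - p 1) - (q 2 - q 1)))))
        = (1 - μ) * (δ - dz) + 1 / 324 * (5 * (m1 * (δ + dx)) + 173 * (m2 * (δ - dx))
          + 19 * (m3 * (δ + dy)) + 19 * (m4 * (δ - dy))) := by
      rw [hμ, hdx, hdy, hdz]; ring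
    constructor <;> linarith

lemma a_analytic (t : ℝ) : AnalyticAt ℝ a t := by
  unfold a
  refine AnalyticAt.div (by fun_prop) (by fun_prop) (by positivity)

lemma f_analytic : AnalyticOnNhd ℝ f univ := by
  intro p _
  have hco : ∀ i : Fin 3, AnalyticAt ℝ (fun p : Fin 3 → ℝ => p i) p := fun i =>
    (ContinuousLinearMap.proj (R := ℝ) (φ := fun _ : Fin 3 => ℝ) i).analyticAt p
  have hs : ∀ i j : Fin 3, AnalyticAt ℝ (fun p : Fin 3 → ℝ => a (p i + p j)) p := fun i j =>
    AnalyticAt.fun_comp (a_analytic _) ((hco i).fun_add (hco j))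
  have hd : ∀ i j : Fin 3, AnalyticAt ℝ (fun p : Fin 3 → ℝ => a (p i - p j)) p := fun i j =>
    AnalyticAt.fun_comp (a_analytic _) ((hco i).fun_sub (hco j))
  have hg : AnalyticAt ℝ g p := by
    unfold g
    have := hs 2 0
    have := hs 2 1
    have := hd 2 0
    have := hd 2 1
    fun_prop
  rw [analyticAt_pi_iff]
  intro i
  fin_cases i
  · exact hco 0
  · exact hco 1
  · exact (hco 2).fun_sub (analyticAt_const.fun_mul hg)

/-- the blow-up of `g` at `0` -/
noncomputable def b (t s : ℝ) : ℝ := s ^ 3 / (1 + t ^ 2 * s ^ 2)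

lemma a_eq_b (t s : ℝ) : a (t * s) = t ^ 3 * b t s := by
  unfold a b
  rw [mul_pow, mul_pow, mul_div_assoc]

noncomputable def G (t : ℝ) (p : Fin 3 → ℝ) : ℝ :=
  5 * b t (p 2 + p 0) + 173 * b t (p 2 - p 0) + 19 * b t (p 2 + p 1) + 19 * b t (p 2 - p 1)

lemma g_smul (t : ℝ) (p : Fin 3 → ℝ) : g (t • p) = t ^ 3 * G t p := by
  unfold g G
  simp only [Pi.smul_apply, smul_eq_mul]
  rw [← mul_add, ← mul_sub, ← mul_add, ← mul_sub, a_eq_b, a_eq_b, a_eq_b, a_eq_b]
  ring

lemma b_cont : Continuous fun q : ℝ × ℝ => b q.1 q.2 := by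
  unfold b
  exact Continuous.div (by fun_prop) (by fun_prop) (fun q => by positivity)

lemma G_cont : Continuous fun q : ℝ × (Fin 3 → ℝ) => G q.1 q.2 := by
  unfold G
  have h : ∀ (i j : Fin 3), Continuous fun q : ℝ × (Fin 3 → ℝ) => b q.1 (q.2 i + q.2 j) :=
    fun i j => b_cont.comp (f := fun q : ℝ × (Fin 3 → ℝ) => (q.1, q.2 i + q.2 j)) (by fun_prop)
  have h' : ∀ (i j : Fin 3), Continuous fun q : ℝ × (Fin 3 → ℝ) => b q.1 (q.2 i - q.2 j) :=
    fun i j => b_cont.comp (f := fun q : ℝ × (Fin 3 → ℝ) => (q.1, q.2 i - q.2 j)) (by fun_prop)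
  have := h 2 0
  have := h 2 1
  have := h' 2 0
  have := h' 2 1
  fun_prop

lemma b_zero (s : ℝ) : b 0 s = s ^ 3 := by unfold b; simp

/-- the leading cubic form -/
def Nf (x y z : ℝ) : ℝ := 5 * (z + x) ^ 3 + 173 * (z - x) ^ 3 + 19 * (z + y) ^ 3 + 19 * (z - y) ^ 3

lemma G_zero (x y z : ℝ) : G 0 ![x, y, z] = Nf x y z := by
  unfold G Nf
  simp only [b_zero]
  simp

lemma Nf_mono (x y : ℝ) {z z' : ℝ} (h : z < z') : Nf x y z < Nf x y z' := by
  unfold Nf
  have hm : StrictMono fun s : ℝ => s ^ 3 := Odd.strictMono_pow (by decide)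
  have h1 := hm (show z + x < z' + x by linarith)
  have h2 := hm (show z - x < z' - x by linarith)
  have h3 := hm (show z + y < z' + y by linarith)
  have h4 := hm (show z - y < z' - y by linarith)
  simp only at h1 h2 h3 h4
  linarith

/-- approximation of a zero of the leading form by points of the fixed point set -/
lemma approx {x y z : ℝ} (hN : Nf x y z = 0) :
    ∃ (t : ℕ → ℝ) (ζ : ℕ → ℝ), (∀ n, 0 < t n) ∧ Tendsto t atTop (𝓝 0) ∧ Tendsto ζ atTop (𝓝 z) ∧
      ∀ n, g (t n • ![x, y, ζ n]) = 0 := by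
  have key : ∀ n : ℕ, ∃ t ζ : ℝ, 0 < t ∧ t < 1 / ((n : ℝ) + 1) ∧ |ζ - z| ≤ 1 / ((n : ℝ) + 1) ∧
      g (t • ![x, y, ζ]) = 0 := by
    intro n
    set δ : ℝ := 1 / ((n : ℝ) + 1) with hδ
    have hδ0 : 0 < δ := by positivity
    have hup : 0 < G 0 ![x, y, z + δ] := by
      rw [G_zero, ← hN]; exact Nf_mono x y (by linarith)
    have hdn : G 0 ![x, y, z - δ] < 0 := by
      rw [G_zero, ← hN]; exact Nf_mono x y (by linarith)
    have hc : ∀ w : ℝ, Tendsto (fun t : ℝ => G t ![x, y, w]) (𝓝[>] 0) (𝓝 (G 0 ![x, y, w])) := by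
      intro w
      have : Continuous fun t : ℝ => G t ![x, y, w] :=
        G_cont.comp (f := fun t : ℝ => (t, ![x, y, w])) (by fun_prop)
      exact (this.tendsto 0).mono_left nhdsWithin_le_nhds
    have e1 := (hc (z + δ)).eventually_const_lt hup
    have e2 := (hc (z - δ)).eventually_lt_const hdn
    have e3 : ∀ᶠ t in 𝓝[>] (0:ℝ), t < δ :=
      (eventually_lt_nhds hδ0).filter_mono nhdsWithin_le_nhds
    obtain ⟨t, ⟨⟨h1, h2⟩, h3⟩, h4⟩ := (((e1.and e2).and e3).and self_mem_nhdsWithin).exists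
    have ht : 0 < t := h4
    have hcont : Continuous fun w : ℝ => G t ![x, y, w] :=
      G_cont.comp (f := fun w : ℝ => (t, ![x, y, w])) (by
        refine continuous_const.prodMk ?_
        refine continuous_pi fun i => ?_
        fin_cases i
        · exact continuous_const
        · exact continuous_const
        · exact continuous_id)
    obtain ⟨w, hw, hw0⟩ := intermediate_value_Icc (show z - δ ≤ z + δ by linarith)
      hcont.continuousOn (show (0:ℝ) ∈ Icc _ _ from ⟨h2.le, h1.le⟩)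
    refine ⟨t, w, ht, h3, ?_, ?_⟩
    · rw [abs_le]; constructor <;> linarith [hw.1, hw.2]
    · rw [g_smul]
      simp only at hw0
      rw [hw0, mul_zero]
  choose t ζ h1 h2 h3 h4 using key
  refine ⟨t, ζ, h1, ?_, ?_, h4⟩
  · exact squeeze_zero (fun n => (h1 n).le) (fun n => (h2 n).le)
      tendsto_one_div_add_atTop_nhds_zero_nat
  · rw [tendsto_iff_norm_sub_tendsto_zero]
    exact squeeze_zero (fun n => norm_nonneg _) h3 tendsto_one_div_add_atTop_nhds_zero_nat

/-- **MP_735b88_an, Q1 (negative answer).** There are a polyhedral normed space `(ℝⁿ, N)`, a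
nonexpansive real analytic map `f` with nonempty fixed point set, and a fixed point `x₀` of `f`
such that no retraction of `ℝⁿ` onto `Fix(f)` is differentiable at `x₀`; in particular no
retraction onto `Fix(f)` is both differentiable and nonexpansive. -/
theorem result : ∃ (n : ℕ) (N : Seminorm ℝ (Fin n → ℝ)) (f : (Fin n → ℝ) → (Fin n → ℝ)),
    IsPolyhedralNorm N ∧ Nonexpansive N f ∧ AnalyticOnNhd ℝ f univ ∧
    ∃ x₀, f x₀ = x₀ ∧ ∀ r, IsRetraction r {x | f x = x} → ¬ DifferentiableAt ℝ r x₀ := by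
  refine ⟨3, normSeminorm ℝ (Fin 3 → ℝ), f, ?_, f_nonexpansive, f_analytic, 0, ?_, ?_⟩
  · refine ⟨fun x hx => norm_eq_zero.mp hx, 6,
      ![LinearMap.proj 0, LinearMap.proj 1, LinearMap.proj 2, -LinearMap.proj 0,
        -LinearMap.proj 1, -LinearMap.proj 2], fun x => ?_⟩
    simp only [coe_normSeminorm]
    have hc : ∀ i, |x i| ≤ ‖x‖ := fun i => norm_le_pi_norm x i
    constructor
    · intro i
      fin_cases i
      · simpa using (le_abs_self _).trans (hc 0)
      · simpa using (le_abs_self _).trans (hc 1)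
      · simpa using (le_abs_self _).trans (hc 2)
      · simpa using (neg_le_abs _).trans (hc 0)
      · simpa using (neg_le_abs _).trans (hc 1)
      · simpa using (neg_le_abs _).trans (hc 2)
    · obtain ⟨j, hj⟩ : ∃ j, ‖x‖ = |x j| := by
        obtain ⟨j, -, hj⟩ := Finset.exists_mem_eq_sup' Finset.univ_nonempty (fun i => ‖x i‖)
        refine ⟨j, ?_⟩
        rw [← Real.norm_eq_abs, ← hj]
        apply le_antisymm
        · rw [pi_norm_le_iff_of_nonneg (by
            rw [hj]; exact norm_nonneg _)]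
          intro i
          exact Finset.le_sup' (fun i => ‖x i‖) (Finset.mem_univ i)
        · apply Finset.sup'_le
          intro i _
          exact norm_le_pi_norm x i
      rw [hj]
      fin_cases j
      · rcases abs_choice (x 0) with h | h
        · exact ⟨0, by simpa using h.symm⟩
        · exact ⟨3, by simpa using h.symm⟩
      · rcases abs_choice (x 1) with h | h
        · exact ⟨1, by simpa using h.symm⟩
        · exact ⟨4, by simpa using h.symm⟩
      · rcases abs_choice (x 2) with h | h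
        · exact ⟨2, by simpa using h.symm⟩
        · exact ⟨5, by simpa using h.symm⟩
  · rw [fix_iff]; simp [g, a]
  · rintro r ⟨hr1, hr2⟩ hd
    set L := fderiv ℝ r 0 with hL
    have h00 : g 0 = 0 := by simp [g, a]
    have hr0 : r 0 = 0 := hr2 0 ((fix_iff 0).mpr h00)
    have hlim : ∀ (t : ℕ → ℝ) (q : ℕ → (Fin 3 → ℝ)) (v : Fin 3 → ℝ), (∀ n, 0 < t n) →
        Tendsto t atTop (𝓝 0) → Tendsto q atTop (𝓝 v) →
        Tendsto (fun n => (t n)⁻¹ • r (t n • q n)) atTop (𝓝 (L v)) := by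
      intro t q v ht ht0 hq
      have h1 : HasFDerivWithinAt r L univ 0 := hd.hasFDerivAt.hasFDerivWithinAt
      have hdl : Tendsto (fun n => t n • q n) atTop (𝓝 0) := by
        have := ht0.smul hq
        rwa [zero_smul] at this
      have hcd : Tendsto (fun n => (t n)⁻¹ • (t n • q n)) atTop (𝓝 v) := by
        refine hq.congr fun n => ?_
        rw [smul_smul, inv_mul_cancel₀ (ht n).ne', one_smul]
      have h2 := h1.lim hdl (Eventually.of_forall fun n => mem_univ _) hcd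
      refine h2.congr fun n => ?_
      rw [hr0, zero_add, sub_zero]
    have hfixv : ∀ x y z : ℝ, Nf x y z = 0 → L ![x, y, z] = ![x, y, z] := by
      intro x y z hN
      obtain ⟨t, ζ, h1, h2, h3, h4⟩ := approx hN
      have hq : Tendsto (fun n => ![x, y, ζ n]) atTop (𝓝 ![x, y, z]) := by
        rw [tendsto_pi_nhds]
        intro i
        fin_cases i
        · exact tendsto_const_nhds
        · exact tendsto_const_nhds
        · exact h3
      have h5 := hlim t _ _ h1 h2 hq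
      have h6 : (fun n => (t n)⁻¹ • r (t n • ![x, y, ζ n])) = fun n => ![x, y, ζ n] := by
        ext1 n
        rw [hr2 _ ((fix_iff _).mpr (h4 n)), smul_smul, inv_mul_cancel₀ (h1 n).ne', one_smul]
      rw [h6] at h5
      exact tendsto_nhds_unique h5 hq
    have e1 := hfixv 0 1 0 (by unfold Nf; norm_num)
    have e2 := hfixv 1 0 (1 / 2) (by unfold Nf; norm_num)
    have e3 := hfixv 1 1 (1 / 3) (by unfold Nf; norm_num)
    have e4 : L ![0, 0, 1] = ![0, 0, 1] := by
      have hv : (![0, 0, 1] : Fin 3 → ℝ)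
          = (6 : ℝ) • (![1, 0, 1 / 2] + ![0, 1, 0] - ![1, 1, 1 / 3]) := by
        ext i
        fin_cases i <;> simp <;> norm_num
      rw [hv, map_smul, map_sub, map_add, e1, e2, e3]
    -- the contradiction
    set t : ℕ → ℝ := fun n => 1 / ((n : ℝ) + 1) with ht
    have ht0 : ∀ n, 0 < t n := fun n => by positivity
    have htl : Tendsto t atTop (𝓝 0) := tendsto_one_div_add_atTop_nhds_zero_nat
    have h5 := hlim t (fun _ => ![0, 0, 1]) _ ht0 htl tendsto_const_nhds
    rw [e4] at h5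
    set w : ℕ → (Fin 3 → ℝ) := fun n => (t n)⁻¹ • r (t n • ![0, 0, 1]) with hw
    have hGw : ∀ n, G (t n) (w n) = 0 := by
      intro n
      have h6 : r (t n • ![0, 0, 1]) ∈ {x | f x = x} := by rw [← hr1]; exact ⟨_, rfl⟩
      have h7 : g (r (t n • ![0, 0, 1])) = 0 := (fix_iff _).mp h6
      have h8 : r (t n • ![0, 0, 1]) = t n • w n := by
        simp only [hw]
        rw [smul_smul, mul_inv_cancel₀ (ht0 n).ne', one_smul]
      rw [h8, g_smul] at h7
      rcases mul_eq_zero.mp h7 with h | h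
      · exact absurd h (pow_pos (ht0 n) 3).ne'
      · exact h
    have h12 : Tendsto (fun n => (t n, w n)) atTop (𝓝 ((0:ℝ), (![0, 0, 1] : Fin 3 → ℝ))) :=
      htl.prodMk_nhds h5
    have h13 := (G_cont.tendsto ((0:ℝ), (![0, 0, 1] : Fin 3 → ℝ))).comp h12
    have h9 : Tendsto (fun n => G (t n) (w n)) atTop (𝓝 (G 0 ![0, 0, 1])) := h13
    have h10 : Tendsto (fun n => G (t n) (w n)) atTop (𝓝 0) := by
      simp only [hGw]; exact tendsto_const_nhds
    have h11 := tendsto_nhds_unique h9 h10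
    rw [G_zero] at h11
    unfold Nf at h11
    norm_num at h11

end Pool.Agent.Results.MP_735b88_an.Retraction
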